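import Pool.Agent.Helper97.NR.Defs
import Pool.Agent.Helper82.NR.X1

/-! # Part X2 of the NR swarm (MP_b63a31_co, Q2): the step for the branch sets -/

set_option autoImplicit false

namespace Pool.Agent.Helper28.NR

open Sum Pool.Agent.Helper97.NR

theorem adj_int {n : ℕ} {g : Gad} {l : Link n} {z : g.V} {y : Bool ⊕ StepV n g.V}
    (h : (step n g).A.Adj (inr (inr (l, z))) y) :
    ∃ v, g.A.Adj (inr z) v ∧ y = emb l v := by
  obtain ⟨l', u, v, huv, hu, hv⟩ := h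
  rcases u with (_ | _) | u
  · exact absurd hu (nd_ne_int _ _)
  · exact absurd hu (nd_ne_int _ _)
  · simp only [emb, inr.injEq, Prod.mk.injEq] at hu
    obtain ⟨rfl, rfl⟩ := hu
    exact ⟨v, huv, hv.symm⟩

/-- A connected set which meets the link `l` but contains none of its ends is contained in the
interior of the link. -/
theorem sub_int {n : ℕ} {g : Gad} {l : Link n} {B : Set (Bool ⊕ StepV n g.V)}
    (hB : Conn (step n g) B) (hne : ∃ v, emb l v ∈ B)
    (hend : ¬ HasEnd ((emb l : Bool ⊕ g.V → Bool ⊕ StepV n g.V) ⁻¹' B)) :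
    ∀ y ∈ B, ∃ z : g.V, y = inr (inr (l, z)) := by
  obtain ⟨v, hv⟩ := hne
  by_contra hcon
  push Not at hcon
  obtain ⟨y, hy, hyn⟩ := hcon
  rcases v with b | z
  · exact hend ⟨b, hv⟩
  obtain ⟨s, ⟨z0, rfl⟩, hs, y', hy', hy'n, hadj⟩ := hB {s | ∃ z : g.V, s = inr (l, z)}
    ⟨inr (l, z), ⟨z, rfl⟩, hv⟩ ⟨y, hy, by
      rintro ⟨s, ⟨z', rfl⟩, rfl⟩
      exact hyn z' rfl⟩
  obtain ⟨w, hw, rfl⟩ := adj_int hadj
  rcases w with b | w
  · exact hend ⟨b, hy'⟩
  · exact hy'n ⟨inr (l, w), ⟨w, rfl⟩, rfl⟩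

theorem conn_pre {n : ℕ} {g : Gad} (l : Link n) {B : Set (Bool ⊕ StepV n g.V)}
    (hB : Conn (step n g) B) :
    Conn g ((emb l : Bool ⊕ g.V → Bool ⊕ StepV n g.V) ⁻¹' B) := by
  intro S hS hy
  obtain ⟨z, hzS, hz⟩ := hS
  obtain ⟨y, hyB, hyS⟩ := hy
  obtain ⟨s, ⟨z0, hz0, rfl⟩, hs, y', hy', hy'n, hadj⟩ :=
    hB {s | ∃ z ∈ S, s = inr (l, z)} ⟨inr (l, z), ⟨z, hzS, rfl⟩, hz⟩ ⟨emb l y, hyB, by
      rintro ⟨s, ⟨z', hz', rfl⟩, hs⟩
      have : (emb l (inr z') : Bool ⊕ StepV n g.V) = emb l y := hs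
      exact hyS ⟨z', hz', emb_inj l this⟩⟩
  obtain ⟨w, hw, rfl⟩ := adj_int hadj
  refine ⟨z0, hz0, hs, w, hy', ?_, hw⟩
  rintro ⟨z', hz', rfl⟩
  exact hy'n ⟨inr (l, z'), ⟨z', hz', rfl⟩, rfl⟩

theorem diam_pre {n r : ℕ} {g : Gad} (l : Link n) {B : Set (Bool ⊕ StepV n g.V)}
    (hB : Conn (step n g) B) (hD : ¬ HasEnd B → Diam (step n g) r B)
    (hend : ¬ HasEnd ((emb l : Bool ⊕ g.V → Bool ⊕ StepV n g.V) ⁻¹' B)) :
    Diam g r ((emb l : Bool ⊕ g.V → Bool ⊕ StepV n g.V) ⁻¹' B) := by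
  intro f hf x hx y hy
  have hsub := sub_int hB ⟨x, hx⟩ hend
  have hne : ¬ HasEnd B := by
    rintro ⟨b, hb⟩
    obtain ⟨z, hz⟩ := hsub _ hb
    simp at hz
  have hxz : ∃ z, x = inr z := by
    rcases x with b | z
    · exact absurd ⟨b, hx⟩ hend
    · exact ⟨z, rfl⟩
  have hyz : ∃ z, y = inr z := by
    rcases y with b | z
    · exact absurd ⟨b, hy⟩ hend
    · exact ⟨z, rfl⟩
  obtain ⟨zx, rfl⟩ := hxz
  obtain ⟨zy, rfl⟩ := hyz
  set f' : Bool ⊕ StepV n g.V → ℕ := fun x => match x with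
    | inl _ => 0
    | inr (inl _) => 0
    | inr (inr p) => f (inr p.2) with hf'
  have := hD hne f' (by
    intro x hx y hy hadj
    obtain ⟨z1, rfl⟩ := hsub _ hx
    obtain ⟨w, hw, rfl⟩ := adj_int hadj
    rcases w with b | w
    · exact absurd ⟨b, hy⟩ hend
    · exact hf (inr z1) hx (inr w) hy hw) _ hx _ hy
  exact this

theorem touch_symm {W : Type} {G : SimpleGraph W} {B C : Set W} (h : Touch G B C) :
    Touch G C B := by
  obtain ⟨x, hx, y, hy, hxy⟩ := h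
  exact ⟨y, hy, x, hx, hxy.symm⟩

/-- If `B` is inside the link `l` and touches `C` then they touch in the gadget. -/
theorem touch_pre {n : ℕ} {g : Gad} {l : Link n} {B C : Set (Bool ⊕ StepV n g.V)}
    (hB : ∀ y ∈ B, ∃ z : g.V, y = inr (inr (l, z)))
    (h : Touch (step n g).A B C) :
    Touch g.A ((emb l : Bool ⊕ g.V → Bool ⊕ StepV n g.V) ⁻¹' B)
      ((emb l : Bool ⊕ g.V → Bool ⊕ StepV n g.V) ⁻¹' C) := by
  obtain ⟨x, hx, y, hy, hxy⟩ := h
  obtain ⟨z, rfl⟩ := hB _ hx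
  obtain ⟨w, hw, rfl⟩ := adj_int hxy
  exact ⟨inr z, hx, w, hy, hw⟩

/-- Sets containing different points of a finite type are few. -/
theorem ncard_le_of_marks {ι W P : Type} [Fintype ι] [Fintype P] {B : ι → Set W}
    (hdis : ∀ i j, i ≠ j → Disjoint (B i) (B j)) (m : P → W) {J : Set ι}
    (hJ : ∀ j ∈ J, ∃ p, m p ∈ B j) : J.ncard ≤ Fintype.card P := by
  have hJ' : ∀ j : J, ∃ p, m p ∈ B j := fun j => hJ j j.2
  choose φ hφ using hJ'
  have hinj : Function.Injective φ := by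
    intro i j hij
    by_contra hne
    have h1 := hφ i
    have h2 := hφ j
    rw [hij] at h1
    exact Set.disjoint_left.mp (hdis i j (fun h => hne (Subtype.ext h))) h1 h2
  have := Nat.card_le_card_of_injective φ hinj
  rw [Nat.card_eq_fintype_card (α := P)] at this
  exact this

/-- X2: the step for the branch sets (the distance of hubs, X1, is the hypothesis `hhub`). -/
theorem sparse_step_of {n r R D : ℕ} {g : Gad} (hD : 2 ≤ D) (h : Sparse g r D)
    (hn : 2 + 2 * n ≤ D ∨ ((∀ a : Bool × Fin n, ∃ f : Bool ⊕ StepV n g.V → ℕ,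
      f (inr (inl a)) = 0 ∧ (∀ b : Bool × Fin n, b ≠ a → f (inr (inl b)) = R + 1) ∧
      ∀ x y, (step n g).A.Adj x y → f y ≤ f x + 1) ∧ 4 * r < R)) :
    Sparse (step n g) r D := by
  classical
  intro ι _ B hdis hconn hdiam
  -- the orientations in the links
  have hl : ∀ l : Link n, ∃ Out : ι → ι → Prop,
      (∀ i, ¬ HasEnd ((emb l : Bool ⊕ g.V → Bool ⊕ StepV n g.V) ⁻¹' (B i)) →
        {j | Out i j}.ncard ≤ D) ∧
      ∀ i j, i ≠ j → ¬ HasEnd ((emb l : Bool ⊕ g.V → Bool ⊕ StepV n g.V) ⁻¹' (B i)) →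
        Touch g.A ((emb l : Bool ⊕ g.V → Bool ⊕ StepV n g.V) ⁻¹' (B i))
          ((emb l : Bool ⊕ g.V → Bool ⊕ StepV n g.V) ⁻¹' (B j)) →
        (HasEnd ((emb l : Bool ⊕ g.V → Bool ⊕ StepV n g.V) ⁻¹' (B j)) → Out i j) ∧
          (Out i j ∨ Out j i) := by
    intro l
    exact h ι (fun i => (emb l : Bool ⊕ g.V → Bool ⊕ StepV n g.V) ⁻¹' (B i))
      (fun i j hij => Disjoint.preimage _ (hdis i j hij))
      (fun i => conn_pre l (hconn i))
      (fun i hi => diam_pre l (hconn i) (hdiam i) hi)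
  choose O hO1 hO2 using hl
  -- type I
  let InL : ι → Link n → Prop := fun i l => (B i).Nonempty ∧
    ∀ y ∈ B i, ∃ z : g.V, y = inr (inr (l, z))
  have hInL_uniq : ∀ i l l', InL i l → InL i l' → l = l' := by
    rintro i l l' ⟨⟨y, hy⟩, h1⟩ ⟨_, h2⟩
    obtain ⟨z, rfl⟩ := h1 y hy
    obtain ⟨z', hz'⟩ := h2 _ hy
    simp only [inr.injEq, Prod.mk.injEq] at hz'
    exact hz'.1
  have hInL_noend : ∀ i l, InL i l →
      ¬ HasEnd ((emb l : Bool ⊕ g.V → Bool ⊕ StepV n g.V) ⁻¹' (B i)) := by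
    rintro i l ⟨_, h1⟩ ⟨b, hb⟩
    obtain ⟨z, hz⟩ := h1 _ hb
    have := emb_inj l (a₁ := inl b) (a₂ := inr z) hz
    simp at this
  have hInL_of : ∀ i l, (∃ v, emb l v ∈ B i) →
      ¬ HasEnd ((emb l : Bool ⊕ g.V → Bool ⊕ StepV n g.V) ⁻¹' (B i)) → InL i l := by
    intro i l hv hend
    exact ⟨⟨_, hv.choose_spec⟩, sub_int (hconn i) hv hend⟩
  -- a set which is not of type I contains a node
  have hnode : ∀ i, (B i).Nonempty → (∀ l, ¬ InL i l) → ∃ x : Node n, nd x ∈ B i := by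
    intro i hne hno
    obtain ⟨y, hy⟩ := hne
    rcases y with b | (a | ⟨l, z⟩)
    · exact ⟨inl b, hy⟩
    · exact ⟨inr a, hy⟩
    · by_cases hend : HasEnd ((emb l : Bool ⊕ g.V → Bool ⊕ StepV n g.V) ⁻¹' (B i))
      · obtain ⟨b, hb⟩ := hend
        rcases b with _ | _
        · exact ⟨src l, hb⟩
        · exact ⟨tgt l, hb⟩
      · exact absurd (hInL_of i l ⟨inr z, hy⟩ hend) (hno l)
  refine ⟨fun i j => (∃ l, InL i l ∧ O l i j) ∨
    ((∀ l, ¬ InL i l) ∧ (B i).Nonempty ∧ (HasEnd (B j) ∨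
      ((∃ a : Bool × Fin n, (inr (inl a) : Bool ⊕ StepV n g.V) ∈ B j) ∧ i ≠ j ∧
        Touch (step n g).A (B i) (B j)))), ?_, ?_⟩
  · intro i hi
    by_cases hI : ∃ l, InL i l
    · obtain ⟨l, hl⟩ := hI
      refine le_trans (Set.ncard_le_ncard ?_ (Set.toFinite _)) (hO1 l i (hInL_noend i l hl))
      rintro j (⟨l', hl', ho⟩ | ⟨hno, _⟩)
      · rw [hInL_uniq i l l' hl hl']
        exact ho
      · exact absurd hl (hno l)
    · push Not at hI
      rcases hn with hn | ⟨hhub, hrR⟩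
      · refine le_trans (ncard_le_of_marks hdis (nd : Node n → Bool ⊕ StepV n g.V) ?_)
          (le_trans (le_of_eq ?_) hn)
        · rintro j (⟨l', hl', ho⟩ | ⟨_, _, (⟨b, hb⟩ | ⟨⟨a, ha⟩, _⟩)⟩)
          · exact absurd hl' (hI l')
          · exact ⟨inl b, hb⟩
          · exact ⟨inr a, ha⟩
        · simp [Fintype.card_sum, Fintype.card_prod, Fintype.card_bool]
      · refine le_trans (ncard_le_of_marks hdis (fun b : Bool =>
          (inl b : Bool ⊕ StepV n g.V)) ?_) (le_trans (le_of_eq ?_) hD)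
        · rintro j (⟨l', hl', ho⟩ | ⟨_, hne, (⟨b, hb⟩ | ⟨⟨b, hb⟩, hij, ht⟩)⟩)
          · exact absurd hl' (hI l')
          · exact ⟨b, hb⟩
          · by_contra hjend
            have hj : ¬ HasEnd (B j) := fun ⟨b, hb⟩ => hjend ⟨b, hb⟩
            obtain ⟨x, hx⟩ := hnode i hne hI
            rcases x with c | a
            · exact hi ⟨c, hx⟩
            · obtain ⟨f, hf0, hf1, hf2⟩ := hhub a
              obtain ⟨u, hu, v, hv, huv⟩ := ht
              have hab : b ≠ a := by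
                rintro rfl
                exact Set.disjoint_left.mp (hdis i j hij) hx hb
              have e1 := hdiam i hi f (fun x _ y _ h => hf2 x y h) _ hx _ hu
              have e2 := hf2 _ _ huv
              have e3 := hdiam j hj f (fun x _ y _ h => hf2 x y h) _ hv _ hb
              have e4 := hf1 b hab
              have e5 : f (nd (inr a)) = 0 := hf0
              omega
        · simp
  · intro i j hij hi ht
    by_cases hI : ∃ l, InL i l
    · obtain ⟨l, hl⟩ := hI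
      have ht' := touch_pre hl.2 ht
      have hOl := hO2 l i j hij (hInL_noend i l hl) ht'
      have hnonempty : ∃ v, (emb l v : Bool ⊕ StepV n g.V) ∈ B j := by
        obtain ⟨x, hx, y, hy, _⟩ := ht'
        exact ⟨y, hy⟩
      refine ⟨fun hj => Or.inl ⟨l, hl, hOl.1 ?_⟩, ?_⟩
      · by_contra hend
        obtain ⟨b, hb⟩ := hj
        obtain ⟨z, hz⟩ := (hInL_of j l hnonempty hend).2 _ hb
        simp at hz
      · by_cases hend : HasEnd ((emb l : Bool ⊕ g.V → Bool ⊕ StepV n g.V) ⁻¹' (B j))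
        · exact Or.inl (Or.inl ⟨l, hl, hOl.1 hend⟩)
        · rcases hOl.2 with ho | ho
          · exact Or.inl (Or.inl ⟨l, hl, ho⟩)
          · exact Or.inr (Or.inl ⟨l, hInL_of j l hnonempty hend, ho⟩)
    · push Not at hI
      have hne : (B i).Nonempty := by
        obtain ⟨x, hx, _⟩ := ht
        exact ⟨x, hx⟩
      have hne' : (B j).Nonempty := by
        obtain ⟨x, hx, y, hy, _⟩ := ht
        exact ⟨y, hy⟩
      refine ⟨fun hj => Or.inr ⟨hI, hne, Or.inl hj⟩, ?_⟩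
      by_cases hJ : ∃ l, InL j l
      · obtain ⟨l, hl⟩ := hJ
        have ht' := touch_pre hl.2 (touch_symm ht)
        have hOl := hO2 l j i hij.symm (hInL_noend j l hl) ht'
        have hnonempty : ∃ v, (emb l v : Bool ⊕ StepV n g.V) ∈ B i := by
          obtain ⟨x, hx, y, hy, _⟩ := ht'
          exact ⟨y, hy⟩
        have hend : HasEnd ((emb l : Bool ⊕ g.V → Bool ⊕ StepV n g.V) ⁻¹' (B i)) := by
          by_contra hend
          exact hI l (hInL_of i l hnonempty hend)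
        exact Or.inr (Or.inl ⟨l, hl, hOl.1 hend⟩)
      · push Not at hJ
        obtain ⟨x, hx⟩ := hnode j hne' hJ
        rcases x with b | a
        · exact Or.inl (Or.inr ⟨hI, hne, Or.inl ⟨b, hx⟩⟩)
        · exact Or.inl (Or.inr ⟨hI, hne, Or.inr ⟨⟨a, hx⟩, hij, ht⟩⟩)

end Pool.Agent.Helper28.NR

namespace Pool.Agent.Helper97.NR

/-- X2: the step for the branch sets. -/
theorem sparse_step {n r R D : ℕ} {g : Gad} (hD : 2 ≤ D) (h : Sparse g r D)
    (hn : 2 + 2 * n ≤ D ∨ (Long g R ∧ 4 * r < R)) : Sparse (step n g) r D :=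
  Pool.Agent.Helper28.NR.sparse_step_of (R := R) hD h
    (hn.imp id fun ⟨hL, hr⟩ => ⟨fun a => hub_dist hL a, hr⟩)

/-- X3 -/
theorem sparse_base (r D : ℕ) : Sparse base r D := by
  intro ι _ B hdis hconn hdiam
  refine ⟨fun _ _ => False, fun i _ => by simp, ?_⟩
  rintro i j hij hi ⟨x, hx, y, hy, _⟩
  rcases x with b | z
  · exact absurd ⟨b, hx⟩ hi
  · exact z.elim

end Pool.Agent.Helper97.NR
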